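import Pool.Agent.Helper7.EC_E.GoalsM

/-!
# MP_ecc237_nt, PART E, packet MB
-/

set_option autoImplicit false

open MeasureTheory Filter Topology Set

namespace EC237.ZE.PkMB

/-- the map `(ℕ × ℕ) ⊕ ((ℕ × ℕ) ⊕ ℕ) → ℕ × ℕ` by the order of the two entries. -/
def ordFun : (ℕ × ℕ) ⊕ ((ℕ × ℕ) ⊕ ℕ) → ℕ × ℕ :=
  Sum.elim (fun x => (x.1, x.1 + x.2 + 1))
    (Sum.elim (fun x => (x.1 + x.2 + 1, x.1)) (fun n => (n, n)))

theorem ordFun_bij : Function.Bijective ordFun := by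
  constructor
  · rintro (⟨p, q⟩ | ⟨p, q⟩ | n) (⟨p', q'⟩ | ⟨p', q'⟩ | n') h <;>
    · have h' : _ = _ := h
      simp only [ordFun, Sum.elim_inl, Sum.elim_inr, Prod.mk.injEq] at h'
      obtain ⟨h1, h2⟩ := h'
      first
      | (exfalso; omega)
      | (have e1 : p = p' := by omega
         have e2 : q = q' := by omega
         rw [e1, e2])
      | (rw [h1])
  · rintro ⟨m, n⟩
    rcases lt_trichotomy m n with h | h | h
    · refine ⟨Sum.inl (m, n - m - 1), ?_⟩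
      have h2 : m + (n - m - 1) + 1 = n := by omega
      show (m, m + (n - m - 1) + 1) = (m, n)
      rw [h2]
    · refine ⟨Sum.inr (Sum.inr m), ?_⟩
      show (m, m) = (m, n)
      rw [h]
    · refine ⟨Sum.inr (Sum.inl (n, m - n - 1)), ?_⟩
      have h2 : n + (m - n - 1) + 1 = m := by omega
      show (n + (m - n - 1) + 1, n) = (m, n)
      rw [h2]

/-- equivalence `(ℕ × ℕ) ⊕ ((ℕ × ℕ) ⊕ ℕ) ≃ ℕ × ℕ` by the order of the two entries. -/
noncomputable def ordEquiv : (ℕ × ℕ) ⊕ ((ℕ × ℕ) ⊕ ℕ) ≃ ℕ × ℕ :=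
  Equiv.ofBijective ordFun ordFun_bij

theorem hasSum_ord {f : ℕ × ℕ → ℝ} {a b c : ℝ}
    (ha : HasSum (fun x : ℕ × ℕ => f (x.1, x.1 + x.2 + 1)) a)
    (hb : HasSum (fun x : ℕ × ℕ => f (x.1 + x.2 + 1, x.1)) b)
    (hc : HasSum (fun n : ℕ => f (n, n)) c) : HasSum f (a + (b + c)) := by
  rw [← ordEquiv.hasSum_iff]
  refine HasSum.sum ?_ (HasSum.sum ?_ ?_)
  · exact ha
  · exact hb
  · exact hc

/-- summation over the antidiagonals. -/
theorem hasSum_antidiag {f : ℕ × ℕ → ℝ} (hf : Summable f) :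
    HasSum (fun n : ℕ => ∑ x ∈ Finset.HasAntidiagonal.antidiagonal n, f x) (∑' x, f x) := by
  have h1 : HasSum (f ∘ Finset.HasAntidiagonal.sigmaAntidiagonalEquivProd) (∑' x, f x) :=
    (Finset.HasAntidiagonal.sigmaAntidiagonalEquivProd.hasSum_iff).2 hf.hasSum
  have h2 := h1.sigma (g := fun n : ℕ => ∑ x ∈ Finset.HasAntidiagonal.antidiagonal n, f x) (by
    intro n
    have h3 := (Finset.HasAntidiagonal.antidiagonal n).hasSum f
    exact h3)
  exact h2

/-- the double series. -/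
noncomputable def W (a b : ℕ) (x : ℕ × ℕ) : ℝ :=
  1 / (((x.1:ℝ) + 1) ^ b * ((x.1:ℝ) + (x.2:ℝ) + 2) ^ a)

theorem summable_base : Summable (fun x : ℕ × ℕ => 1 / (((x.1:ℝ) + 1) ^ 2 * ((x.2:ℝ) + 1) ^ 2)) := by
  have h0 : Summable (fun n : ℕ => 1 / ((n:ℝ) + 1) ^ 2) := by
    have := (summable_nat_add_iff 1).2 (Real.summable_one_div_nat_pow.2 (by norm_num : 1 < 2))
    refine this.congr ?_
    intro n
    push_cast
    rfl
  have h1 := Summable.mul_of_nonneg h0 h0 (fun n => by positivity) (fun n => by positivity)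
  refine h1.congr ?_
  intro x
  rw [one_div_mul_one_div]

theorem summable_W (a b : ℕ) (ha : 2 ≤ a) (hab : 4 ≤ a + b) : Summable (W a b) := by
  refine Summable.of_nonneg_of_le (fun x => ?_) (fun x => ?_) summable_base
  · unfold W; positivity
  · unfold W
    have hP : (1:ℝ) ≤ (x.1:ℝ) + 1 := by
      have : (0:ℝ) ≤ (x.1:ℝ) := Nat.cast_nonneg _
      linarith
    have hQ : (1:ℝ) ≤ (x.2:ℝ) + 1 := by
      have : (0:ℝ) ≤ (x.2:ℝ) := Nat.cast_nonneg _
      linarith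
    set P : ℝ := (x.1:ℝ) + 1 with hPd
    set Q : ℝ := (x.2:ℝ) + 1 with hQd
    have hN : (x.1:ℝ) + (x.2:ℝ) + 2 = P + Q := by rw [hPd, hQd]; ring
    rw [hN]
    obtain ⟨c, rfl⟩ := Nat.exists_eq_add_of_le ha
    apply one_div_le_one_div_of_le (by positivity)
    have h1 : Q ^ 2 ≤ (P + Q) ^ 2 := by
      apply pow_le_pow_left₀ (by linarith) (by linarith)
    have h2 : P ^ c ≤ (P + Q) ^ c := by
      apply pow_le_pow_left₀ (by linarith) (by linarith)
    have h3 : P ^ 2 ≤ P ^ (b + c) := pow_le_pow_right₀ hP (by omega)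
    calc P ^ 2 * Q ^ 2 ≤ P ^ (b + c) * (P + Q) ^ 2 := by
          apply mul_le_mul h3 h1 (by positivity) (by positivity)
      _ = P ^ b * P ^ c * (P + Q) ^ 2 := by rw [pow_add]
      _ ≤ P ^ b * (P + Q) ^ c * (P + Q) ^ 2 := by
          apply mul_le_mul_of_nonneg_right _ (by positivity)
          apply mul_le_mul_of_nonneg_left h2 (by positivity)
      _ = P ^ b * (P + Q) ^ (2 + c) := by rw [pow_add]; ring

theorem hasSum_W (a b : ℕ) (ha : 2 ≤ a) (hab : 4 ≤ a + b) :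
    HasSum (W a b) (∑' n : ℕ, Hs b n / ((n:ℝ) + 1) ^ a) := by
  have hs := summable_W a b ha hab
  have h1 := hasSum_antidiag hs
  have h2 : ∀ n : ℕ, ∑ x ∈ Finset.HasAntidiagonal.antidiagonal n, W a b x =
      Hs b (n + 1) / (((n + 1 : ℕ):ℝ) + 1) ^ a := by
    intro n
    rw [Finset.Nat.sum_antidiagonal_eq_sum_range_succ_mk]
    unfold Hs
    rw [Finset.sum_div]
    apply Finset.sum_congr rfl
    intro k hk
    have hk' : k ≤ n := by
      have := Finset.mem_range.1 hk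
      omega
    unfold W
    simp only
    rw [Nat.cast_sub hk', div_div]
    congr 2
    push_cast
    ring
  have h3 : HasSum (fun n : ℕ => Hs b (n + 1) / (((n + 1 : ℕ):ℝ) + 1) ^ a) (∑' x, W a b x) := by
    have h4 : (fun n : ℕ => Hs b (n + 1) / (((n + 1 : ℕ):ℝ) + 1) ^ a) =
        fun n : ℕ => ∑ x ∈ Finset.HasAntidiagonal.antidiagonal n, W a b x := funext fun n => (h2 n).symm
    rw [h4]
    exact h1
  have h5 : HasSum (fun n : ℕ => Hs b n / ((n:ℝ) + 1) ^ a) (∑' x, W a b x) := by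
    have h6 := (hasSum_nat_add_iff (f := fun n : ℕ => Hs b n / ((n:ℝ) + 1) ^ a) 1).1 h3
    have h7 : ∑ i ∈ Finset.range 1, Hs b i / ((i:ℝ) + 1) ^ a = 0 := by
      simp [Hs]
    rw [h7, add_zero] at h6
    exact h6
  rw [h5.tsum_eq]
  exact hs.hasSum

theorem hasSum_W_swap (a b : ℕ) (ha : 2 ≤ a) (hab : 4 ≤ a + b) :
    HasSum (fun x : ℕ × ℕ => 1 / (((x.2:ℝ) + 1) ^ b * ((x.1:ℝ) + (x.2:ℝ) + 2) ^ a))
      (∑' n : ℕ, Hs b n / ((n:ℝ) + 1) ^ a) := by
  have h := ((Equiv.prodComm ℕ ℕ).hasSum_iff).2 (hasSum_W a b ha hab)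
  have e : (fun x : ℕ × ℕ => 1 / (((x.2:ℝ) + 1) ^ b * ((x.1:ℝ) + (x.2:ℝ) + 2) ^ a)) =
      W a b ∘ (Equiv.prodComm ℕ ℕ) := by
    funext x
    show _ = W a b (x.2, x.1)
    unfold W
    rw [add_comm (x.1:ℝ) (x.2:ℝ)]
  rw [e]
  exact h

theorem hasSum_zeta5 : HasSum (fun n : ℕ => 1 / ((n:ℝ) + 1) ^ 5) zeta5 := by
  have : Summable (fun n : ℕ => 1 / ((n:ℝ) + 1) ^ 5) := by
    have := (summable_nat_add_iff 1).2 (Real.summable_one_div_nat_pow.2 (by norm_num : 1 < 5))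
    refine this.congr ?_
    intro n
    push_cast
    rfl
  exact this.hasSum

theorem thm : G_MB := by
  unfold G_MB
  -- stuffle
  have s1 : HasSum (fun x : ℕ × ℕ => 1 / (((x.1:ℝ) + 1) ^ 2 * ((x.2:ℝ) + 1) ^ 3))
      (z32 + (z23 + zeta5)) := by
    apply hasSum_ord
    · have h := hasSum_W 3 2 (by norm_num) (by norm_num)
      have e : W 3 2 = (fun x : ℕ × ℕ =>
          1 / (((x.1:ℝ) + 1) ^ 2 * (((x.1 + x.2 + 1 : ℕ):ℝ) + 1) ^ 3)) := by
        funext x
        unfold W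
        push_cast
        congr 2
        ring
      rw [e] at h
      exact h
    · have h := hasSum_W 2 3 (by norm_num) (by norm_num)
      have e : W 2 3 = (fun x : ℕ × ℕ =>
          1 / ((((x.1 + x.2 + 1 : ℕ):ℝ) + 1) ^ 2 * ((x.1:ℝ) + 1) ^ 3)) := by
        funext x
        unfold W
        push_cast
        congr 1
        ring
      rw [e] at h
      exact h
    · have h := hasSum_zeta5
      have e : (fun n : ℕ => 1 / ((n:ℝ) + 1) ^ 5) =
          (fun n : ℕ => 1 / (((n:ℝ) + 1) ^ 2 * ((n:ℝ) + 1) ^ 3)) := by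
        funext n
        rw [← pow_add]
      rw [e] at h
      exact h
  -- partial fractions
  have s2 : HasSum (fun x : ℕ × ℕ => 1 / (((x.1:ℝ) + 1) ^ 2 * ((x.2:ℝ) + 1) ^ 3))
      (z23 + 2 * z32 + 3 * z41 + z32 + 3 * z41) := by
    have a1 := hasSum_W_swap 2 3 (by norm_num) (by norm_num)
    have a2 := (hasSum_W_swap 3 2 (by norm_num) (by norm_num)).mul_left 2
    have a3 := (hasSum_W_swap 4 1 (by norm_num) (by norm_num)).mul_left 3
    have a4 := hasSum_W 3 2 (by norm_num) (by norm_num)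
    have a5 := (hasSum_W 4 1 (by norm_num) (by norm_num)).mul_left 3
    have a6 := (((a1.add a2).add a3).add a4).add a5
    refine a6.congr_fun ?_
    intro x
    unfold W
    have hP : ((x.1:ℝ) + 1) ≠ 0 := by positivity
    have hQ : ((x.2:ℝ) + 1) ≠ 0 := by positivity
    have hN : ((x.1:ℝ) + (x.2:ℝ) + 2) ≠ 0 := by positivity
    field_simp
    ring
  have s3 := s1.unique s2
  have hz : z32 + (z23 + zeta5) = z23 + 2 * z32 + 3 * z41 + z32 + 3 * z41 := s3
  linarith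

end EC237.ZE.PkMB
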