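import Pool.Agent.Helper28.EC_E.MB

/-!
# MP_ecc237_nt, PART E, packet MC
-/

set_option autoImplicit false

open MeasureTheory Filter Topology Set

namespace EC237.ZE.PkMC

open EC237.ZE.PkMB

theorem tele (P : ℕ) : HasSum (fun q : ℕ => 1 / ((P:ℝ) + q + 1) - 1 / ((P:ℝ) + q + 2))
    (1 / ((P:ℝ) + 1)) := by
  rw [hasSum_iff_tendsto_nat_of_nonneg]
  · have h : ∀ n : ℕ, ∑ q ∈ Finset.range n, (1 / ((P:ℝ) + q + 1) - 1 / ((P:ℝ) + q + 2)) =
        1 / ((P:ℝ) + 1) - 1 / ((P:ℝ) + n + 1) := by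
      intro n
      induction n with
      | zero => simp
      | succ n ih =>
        rw [Finset.sum_range_succ, ih]
        push_cast
        ring_nf
    have h2 : Tendsto (fun n : ℕ => 1 / ((P:ℝ) + 1) - 1 / ((P:ℝ) + n + 1)) atTop
        (𝓝 (1 / ((P:ℝ) + 1) - 0)) := by
      apply Tendsto.sub tendsto_const_nhds
      have h3 := tendsto_one_div_add_atTop_nhds_zero_nat (𝕜 := ℝ)
      have h4 := h3.comp (tendsto_add_atTop_nat P)
      refine h4.congr ?_
      intro n
      simp only [Function.comp]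
      push_cast
      congr 1
      ring
    rw [sub_zero] at h2
    refine h2.congr ?_
    intro n
    exact (h n).symm
  · intro q
    rw [sub_nonneg]
    apply one_div_le_one_div_of_le (by positivity)
    linarith

theorem inner (P : ℕ) : HasSum (fun q : ℕ => 1 / ((q:ℝ) + 1) - 1 / ((P:ℝ) + q + 1))
    (Hs 1 P) := by
  induction P with
  | zero =>
    have : (fun q : ℕ => 1 / ((q:ℝ) + 1) - 1 / (((0:ℕ):ℝ) + q + 1)) = fun _ => 0 := by
      funext q
      simp
    rw [this]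
    simp [Hs]
  | succ P ih =>
    have h := ih.add (tele P)
    have e : Hs 1 (P + 1) = Hs 1 P + 1 / ((P:ℝ) + 1) := by
      unfold Hs
      rw [Finset.sum_range_succ, pow_one]
    rw [e]
    refine h.congr_fun ?_
    intro q
    push_cast
    ring_nf

theorem inner' (p : ℕ) : HasSum (fun q : ℕ => 1 / (((p:ℝ) + 1) ^ 3 * ((q:ℝ) + 1) *
    ((p:ℝ) + q + 2))) (Hs 1 (p + 1) / ((p:ℝ) + 1) ^ 4) := by
  have h := (inner (p + 1)).mul_left (1 / ((p:ℝ) + 1) ^ 4)
  have e : 1 / ((p:ℝ) + 1) ^ 4 * Hs 1 (p + 1) = Hs 1 (p + 1) / ((p:ℝ) + 1) ^ 4 := by ring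
  rw [e] at h
  refine h.congr_fun ?_
  intro q
  push_cast
  have hP : ((p:ℝ) + 1) ≠ 0 := by positivity
  have hQ : ((q:ℝ) + 1) ≠ 0 := by positivity
  have hN : ((p:ℝ) + (q:ℝ) + 2) ≠ 0 := by positivity
  have hN' : ((p:ℝ) + 1 + (q:ℝ) + 1) ≠ 0 := by positivity
  field_simp
  ring

theorem thm : G_MC := by
  unfold G_MC
  have a1 := hasSum_W 2 3 (by norm_num) (by norm_num)
  have a2 := hasSum_W 3 2 (by norm_num) (by norm_num)
  have a3 := hasSum_W 4 1 (by norm_num) (by norm_num)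
  have a4 := hasSum_W_swap 4 1 (by norm_num) (by norm_num)
  have a5 := ((a1.add a2).add a3).add a4
  have s1 : HasSum (fun x : ℕ × ℕ => 1 / (((x.1:ℝ) + 1) ^ 3 * ((x.2:ℝ) + 1) *
    ((x.1:ℝ) + x.2 + 2))) (z23 + z32 + z41 + z41) := by
    refine a5.congr_fun ?_
    intro x
    unfold W
    have hP : ((x.1:ℝ) + 1) ≠ 0 := by positivity
    have hQ : ((x.2:ℝ) + 1) ≠ 0 := by positivity
    have hN : ((x.1:ℝ) + (x.2:ℝ) + 2) ≠ 0 := by positivity
    field_simp
    ring
  have s2 := s1.prod_fiberwise (fun p => inner' p)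
  have b1 : HasSum (fun n : ℕ => Hs 1 n / ((n:ℝ) + 1) ^ 4) z41 := by
    have h := hasSum_antidiag (summable_W 4 1 (by norm_num) (by norm_num))
    have h2 : ∀ n : ℕ, ∑ x ∈ Finset.HasAntidiagonal.antidiagonal n, W 4 1 x =
        Hs 1 (n + 1) / (((n + 1 : ℕ):ℝ) + 1) ^ 4 := by
      intro n
      rw [Finset.Nat.sum_antidiagonal_eq_sum_range_succ_mk]
      unfold Hs
      rw [Finset.sum_div]
      apply Finset.sum_congr rfl
      intro k hk
      have hk' : k ≤ n := by
        have := Finset.mem_range.1 hk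
        omega
      unfold W
      simp only
      rw [Nat.cast_sub hk', div_div]
      congr 2
      push_cast
      ring
    have h3 : Summable (fun n : ℕ => Hs 1 (n + 1) / (((n + 1 : ℕ):ℝ) + 1) ^ 4) := by
      refine h.summable.congr ?_
      intro n
      exact (h2 n)
    have h4 : Summable (fun n : ℕ => Hs 1 n / ((n:ℝ) + 1) ^ 4) :=
      (summable_nat_add_iff (f := fun n : ℕ => Hs 1 n / ((n:ℝ) + 1) ^ 4) 1).1 h3
    exact h4.hasSum
  have b2 := b1.add hasSum_zeta5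
  have s3 : HasSum (fun p : ℕ => Hs 1 (p + 1) / ((p:ℝ) + 1) ^ 4) (z41 + zeta5) := by
    refine b2.congr_fun ?_
    intro p
    have e : Hs 1 (p + 1) = Hs 1 p + 1 / ((p:ℝ) + 1) := by
      unfold Hs
      rw [Finset.sum_range_succ, pow_one]
    rw [e]
    have hP : ((p:ℝ) + 1) ≠ 0 := by positivity
    field_simp
  have s4 := s2.unique s3
  linarith

end EC237.ZE.PkMC
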